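import Pool.Agent.Helper42.Comm.StepNA

set_option autoImplicit false

/-! # `stepN` (handoff for MP_76db9d_al) -/

namespace Pool.Agent.Helper42.StepN

open Pool.Agent.Helper7.Comm Pool.Agent.Helper7.Comm.NC Pool.Agent.Helper57.Reduce
open Pool.Agent.Helper88.PropE
open scoped commutatorElement

noncomputable section

/-- Constants as a ring homomorphism. -/
def cst : ℚ →+* UF where
  toFun q := ger (fun _ => q)
  map_one' := rfl
  map_mul' _ _ := rfl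
  map_zero' := rfl
  map_add' _ _ := rfl

theorem ger_const (q : ℚ) : ger (fun _ => q) = algebraMap ℚ UF q :=
  RingHom.congr_fun (Subsingleton.elim cst (algebraMap ℚ UF)) q

theorem gm_rb {κ : Type} [DecidableEq κ] (w : List κ) :
    gm (fun _ => (rb w : NC κ ℚ)) = rb w := by
  rw [← cmap_alg_rb (K := ℚ) (F := UF) w]
  ext v
  exact ger_const _

theorem gm_letter {κ : Type} [DecidableEq κ] (a : κ) :
    gm (fun _ => (letter a : NC κ ℚ)) = letter a := by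
  rw [← cmap_alg_letter (K := ℚ) (F := UF) a]
  ext v
  exact ger_const _

theorem gm_lie {κ : Type} (f g : ℕ → NC κ ℚ) :
    gm (fun n => ⁅f n, g n⁆) = ⁅gm f, gm g⁆ := by
  simp only [Ring.lie_def]
  rw [gm_sub, gm_mul, gm_mul]

theorem gm_words {κ : Type} [DecidableEq κ] (S : Finset (List κ)) (a : List κ → ℕ → ℤ) :
    gm (fun n => ∑ w ∈ S, (a w n : ℚ) • (rb w : NC κ ℚ)) =
      ∑ w ∈ S, ger (fun n => (a w n : ℚ)) • (rb w : NC κ UF) := by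
  rw [gm_sum S (fun w n => (a w n : ℚ) • (rb w : NC κ ℚ))]
  refine Finset.sum_congr rfl fun w _ => ?_
  rw [gm_smul (fun n => (a w n : ℚ)) (fun _ => (rb w : NC κ ℚ)), gm_rb]

theorem words_swap {κ : Type} [DecidableEq κ] {K F : Type} [Field K] [Field F] [Algebra K F]
    {s : ℕ} (S : Finset (List κ)) (c : Fin s → F) (a : Fin s → List κ → K) :
    ∑ w ∈ S, (∑ k, c k * algebraMap K F (a k w)) • (rb w : NC κ F) =
      ∑ k, c k • cmap (algebraMap K F) (∑ w ∈ S, a k w • (rb w : NC κ K)) := by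
  have h1 : ∀ k, cmap (algebraMap K F) (∑ w ∈ S, a k w • (rb w : NC κ K)) =
      ∑ w ∈ S, algebraMap K F (a k w) • (rb w : NC κ F) := by
    intro k
    rw [cmap_alg_sum]
    exact Finset.sum_congr rfl fun w _ => by rw [cmap_alg_smul, cmap_alg_rb]
  simp only [h1, Finset.smul_sum, Finset.sum_smul, smul_smul]
  rw [Finset.sum_comm]

/-- Integer representatives. -/
theorem exists_rep {B : ℕ → ℕ} {s : ℕ} (S : Finset (List (Fin 2))) (nk : Fin s → UF)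
    (hnk : ∀ k, nk k ∈ II) (D : UF) (a : Fin s → List (Fin 2) → KK B)
    (ha : ∀ k, ∀ w ∈ S, D * algebraMap (KK B) UF (a k w) ∈ II) :
    ∃ α : List (Fin 2) → ℕ → ℤ, (∀ w, (∀ k, a k w = 0) → ∀ n, α w n = 0) ∧
      ∀ w ∈ S, ger (fun n => (α w n : ℚ)) =
        ∑ k, (-(nk k * D)) * algebraMap (KK B) UF (a k w) := by
  have h : ∀ w, ∃ z : ℕ → ℤ, ((∀ k, a k w = 0) → ∀ n, z n = 0) ∧
      (w ∈ S → ger (fun n => (z n : ℚ)) =
        ∑ k, (-(nk k * D)) * algebraMap (KK B) UF (a k w)) := by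
    intro w
    by_cases h1 : ∀ k, a k w = 0
    · refine ⟨fun _ => 0, fun _ _ => rfl, fun _ => ?_⟩
      simp only [h1, map_zero, mul_zero, Finset.sum_const_zero, Int.cast_zero]
      rfl
    · by_cases hw : w ∈ S
      · have h2 : (∑ k, (-(nk k * D)) * algebraMap (KK B) UF (a k w)) ∈ II := by
          refine sum_mem fun k _ => ?_
          have : -(nk k * D) * algebraMap (KK B) UF (a k w) =
              -(nk k * (D * algebraMap (KK B) UF (a k w))) := by ring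
          rw [this]
          exact neg_mem (mul_mem (hnk k) (ha k w hw))
        obtain ⟨z, hz⟩ := mem_II.mp h2
        exact ⟨z, fun h => absurd h h1, fun _ => hz.symm⟩
      · exact ⟨fun _ => 0, fun _ _ => rfl, fun h => absurd h hw⟩
  choose α h1 h2 using h
  exact ⟨α, h1, h2⟩

/-- The new coefficients at the level are bounded. -/
theorem level_bound {r : ℕ} {B : ℕ → ℕ} {m s : ℕ} {X X' : NC (Fin r) UF} {ω nk : Fin s → UF}
    {D : UF} (hD : D ∈ OO B) (hD0 : D ≠ 0) (hnk : ∀ k, |ω k / D - nk k| ≤ 1)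
    {ρ : Fin s → UF →ₗ[KK B] KK B} {ρ₀ : UF →ₗ[KK B] KK B}
    (hexp : ∀ w : List (Fin r), w.length = m → X w = algebraMap (KK B) UF (ρ₀ (X w)) +
      ∑ k, ω k * algebraMap (KK B) UF (ρ k (X w)))
    (h : Ord (m + 1) (X' - X - ∑ k, (-(nk k * D)) •
      cmap (algebraMap (KK B) UF) (comp m (cmap (ρ k) X)))) :
    (∀ w : List (Fin r), w.length < m → X' w = X w) ∧
      ∀ w : List (Fin r), w.length = m → X' w ∈ OO B := by
  constructor
  · intro w hw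
    have h1 := h w (by omega)
    rw [NC.sub_apply, NC.sub_apply, NC.sum_apply] at h1
    have h2 : ∀ k, ((-(nk k * D)) • cmap (algebraMap (KK B) UF) (comp m (cmap (ρ k) X))) w = 0 := by
      intro k
      rw [NC.smul_apply, cmap_apply, comp_apply, if_neg (by omega), map_zero, smul_zero]
    simp only [h2, Finset.sum_const_zero, sub_zero] at h1
    exact sub_eq_zero.mp h1
  · intro w hw
    have h1 := h w (by omega)
    rw [NC.sub_apply, NC.sub_apply, NC.sum_apply] at h1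
    have h2 : ∀ k, ((-(nk k * D)) • cmap (algebraMap (KK B) UF) (comp m (cmap (ρ k) X))) w =
        (-(nk k * D)) * algebraMap (KK B) UF (ρ k (X w)) := by
      intro k
      rw [NC.smul_apply, cmap_apply, comp_apply, if_pos hw, cmap_apply, smul_eq_mul]
    simp only [h2] at h1
    have h3 : X' w = algebraMap (KK B) UF (ρ₀ (X w)) +
        ∑ k, (ω k - nk k * D) * algebraMap (KK B) UF (ρ k (X w)) := by
      have h4 : X' w = X w + ∑ k, (-(nk k * D)) * algebraMap (KK B) UF (ρ k (X w)) := by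
        rw [sub_eq_zero] at h1
        rw [← h1]; ring
      rw [h4]
      conv_lhs => rw [hexp w hw]
      rw [add_assoc, ← Finset.sum_add_distrib]
      congr 1
      refine Finset.sum_congr rfl fun k _ => ?_
      have h5 := hexp w hw
      rw [← h5]
      ring
    rw [h3]
    have hK : ∀ a : KK B, algebraMap (KK B) UF a ∈ OO B := fun a => KK_le_OO a.2
    refine add_mem (hK _) (sum_mem fun k _ => mul_mem ?_ (hK _))
    refine OO_of_le hD ?_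
    have h6 : ω k - nk k * D = (ω k / D - nk k) * D := by field_simp
    rw [h6, abs_mul]
    exact mul_le_of_le_one_left (abs_nonneg _) (hnk k)

/-- The equation survives moves which do not change the commutator modulo degree `> c`. -/
theorem heq_step {r c : ℕ} {E : FreeGroup (Fin r) →* (NC (Fin r) ℚ)ˣ} (hE : IsExpMag E)
    {x y g x' y' : FreeGroup (Fin r)}
    (h : Ord (c + 1) (((E x : (NC (Fin r) ℚ)ˣ) : NC (Fin r) ℚ) * ((E y : (NC (Fin r) ℚ)ˣ) : NC (Fin r) ℚ) -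
      ((E g : (NC (Fin r) ℚ)ˣ) : NC (Fin r) ℚ) * ((E y : (NC (Fin r) ℚ)ˣ) : NC (Fin r) ℚ) *
        ((E x : (NC (Fin r) ℚ)ˣ) : NC (Fin r) ℚ)))
    (h' : ⁅x', y'⁆ * ⁅x, y⁆⁻¹ ∈ Gam (fun _ : Fin r => 1) (c + 1)) :
    Ord (c + 1) (((E x' : (NC (Fin r) ℚ)ˣ) : NC (Fin r) ℚ) * ((E y' : (NC (Fin r) ℚ)ˣ) : NC (Fin r) ℚ) -
      ((E g : (NC (Fin r) ℚ)ˣ) : NC (Fin r) ℚ) * ((E y' : (NC (Fin r) ℚ)ˣ) : NC (Fin r) ℚ) *
        ((E x' : (NC (Fin r) ℚ)ˣ) : NC (Fin r) ℚ)) := by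
  have o1 : Ord (c + 1) (((E (⁅x', y'⁆ * ⁅x, y⁆⁻¹) : (NC (Fin r) ℚ)ˣ) : NC (Fin r) ℚ) - 1) := by
    have := (hE.hgam _ _).mp h'
    intro w hw
    exact this w (by simpa [wt] using hw)
  have o2 : Ord (c + 1) (((E ⁅x, y⁆ : (NC (Fin r) ℚ)ˣ) : NC (Fin r) ℚ) -
      ((E g : (NC (Fin r) ℚ)ˣ) : NC (Fin r) ℚ)) := by
    have e1 : ((E x : (NC (Fin r) ℚ)ˣ) : NC (Fin r) ℚ) * ((E y : (NC (Fin r) ℚ)ˣ) : NC (Fin r) ℚ) -
      ((E g : (NC (Fin r) ℚ)ˣ) : NC (Fin r) ℚ) * ((E y : (NC (Fin r) ℚ)ˣ) : NC (Fin r) ℚ) *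
        ((E x : (NC (Fin r) ℚ)ˣ) : NC (Fin r) ℚ) =
        (((E ⁅x, y⁆ : (NC (Fin r) ℚ)ˣ) : NC (Fin r) ℚ) - ((E g : (NC (Fin r) ℚ)ˣ) : NC (Fin r) ℚ)) *
          ((E (y * x) : (NC (Fin r) ℚ)ˣ) : NC (Fin r) ℚ) := by
      have e2 : x * y = ⁅x, y⁆ * (y * x) := by rw [commutatorElement_def]; group
      have e7 : ((E x : (NC (Fin r) ℚ)ˣ) : NC (Fin r) ℚ) * ((E y : (NC (Fin r) ℚ)ˣ) : NC (Fin r) ℚ) =
          ((E ⁅x, y⁆ : (NC (Fin r) ℚ)ˣ) : NC (Fin r) ℚ) *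
            ((E (y * x) : (NC (Fin r) ℚ)ˣ) : NC (Fin r) ℚ) := by
        rw [← Units.val_mul, ← map_mul, ← Units.val_mul, ← map_mul, ← e2]
      rw [sub_mul, ← e7, map_mul E y x, Units.val_mul, mul_assoc]
    have e3 : ((E ⁅x, y⁆ : (NC (Fin r) ℚ)ˣ) : NC (Fin r) ℚ) - ((E g : (NC (Fin r) ℚ)ˣ) : NC (Fin r) ℚ) =
        (((E ⁅x, y⁆ : (NC (Fin r) ℚ)ˣ) : NC (Fin r) ℚ) - ((E g : (NC (Fin r) ℚ)ˣ) : NC (Fin r) ℚ)) *
          ((E (y * x) : (NC (Fin r) ℚ)ˣ) : NC (Fin r) ℚ) *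
          (((E (y * x))⁻¹ : (NC (Fin r) ℚ)ˣ) : NC (Fin r) ℚ) := by
      rw [mul_assoc, Units.mul_inv, mul_one]
    rw [e3, ← e1]
    exact h.mul_unit
  have e4 : ((E x' : (NC (Fin r) ℚ)ˣ) : NC (Fin r) ℚ) * ((E y' : (NC (Fin r) ℚ)ˣ) : NC (Fin r) ℚ) -
      ((E g : (NC (Fin r) ℚ)ˣ) : NC (Fin r) ℚ) * ((E y' : (NC (Fin r) ℚ)ˣ) : NC (Fin r) ℚ) *
        ((E x' : (NC (Fin r) ℚ)ˣ) : NC (Fin r) ℚ) =
      ((((E (⁅x', y'⁆ * ⁅x, y⁆⁻¹) : (NC (Fin r) ℚ)ˣ) : NC (Fin r) ℚ) - 1) *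
        ((E ⁅x, y⁆ : (NC (Fin r) ℚ)ˣ) : NC (Fin r) ℚ) +
        (((E ⁅x, y⁆ : (NC (Fin r) ℚ)ˣ) : NC (Fin r) ℚ) - ((E g : (NC (Fin r) ℚ)ˣ) : NC (Fin r) ℚ))) *
        ((E (y' * x') : (NC (Fin r) ℚ)ˣ) : NC (Fin r) ℚ) := by
    have e5 : x' * y' = (⁅x', y'⁆ * ⁅x, y⁆⁻¹) * ⁅x, y⁆ * (y' * x') := by
      rw [commutatorElement_def, commutatorElement_def]; group
    have e6 : ((E x' : (NC (Fin r) ℚ)ˣ) : NC (Fin r) ℚ) * ((E y' : (NC (Fin r) ℚ)ˣ) : NC (Fin r) ℚ) =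
        ((E (⁅x', y'⁆ * ⁅x, y⁆⁻¹) : (NC (Fin r) ℚ)ˣ) : NC (Fin r) ℚ) *
        ((E ⁅x, y⁆ : (NC (Fin r) ℚ)ˣ) : NC (Fin r) ℚ) *
        ((E (y' * x') : (NC (Fin r) ℚ)ˣ) : NC (Fin r) ℚ) := by
      rw [← Units.val_mul, ← map_mul, ← Units.val_mul, ← map_mul, ← Units.val_mul, ← map_mul, ← e5]
    rw [e6, mul_assoc (((E g : (NC (Fin r) ℚ)ˣ) : NC (Fin r) ℚ)), ← Units.val_mul (E y') (E x'),
      ← map_mul E y' x']
    noncomm_ring
  rw [e4]
  refine Ord.mul_unit ?_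
  intro w hw
  rw [NC.add_apply, (Ord.mul_unit o1) w hw, o2 w hw, add_zero]

theorem ord_of_ordGE {r n : ℕ} {f : NC (Fin r) ℚ} (h : OrdGE (fun _ => 1) n f) : Ord n f :=
  fun w hw => h w (by simpa [wt] using hw)

theorem ordGE_of_ord {r n : ℕ} {f : NC (Fin r) ℚ} (h : Ord n f) : OrdGE (fun _ => 1) n f :=
  fun w hw => h w (by simpa [wt] using hw)

theorem letter_isHom {κ K : Type} [DecidableEq κ] [Field K] (k : κ) :
    IsHom 1 (letter k : NC κ K) := by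
  intro v hv
  change (if v = [k] then (1 : K) else 0) = 0
  rw [if_neg]
  rintro rfl
  exact hv rfl

theorem words_long {κ K : Type} [DecidableEq κ] [Field K] {N : ℕ} {S : Finset (List κ)}
    (hS : ∀ w ∈ S, w.length ≤ N) (k : κ) (a : List κ → K) (v : List κ) (hv : N + 1 < v.length) :
    (⁅(letter k : NC κ K), ∑ w ∈ S, a w • (rb w : NC κ K)⁆ : NC κ K) v = 0 := by
  rw [Ring.lie_def, Finset.mul_sum, Finset.sum_mul, ← Finset.sum_sub_distrib, NC.sum_apply]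
  refine Finset.sum_eq_zero fun w hw => ?_
  rw [mul_smul_comm, smul_mul_assoc, ← smul_sub, NC.smul_apply, ← Ring.lie_def]
  have := (letter_isHom (K := K) k).lie (rb_isHom (K := K) w) v (by have := hS w hw; omega)
  rw [this, smul_zero]

theorem stepN {r c : ℕ} {E : FreeGroup (Fin r) →* (NC (Fin r) ℚ)ˣ} (hE : IsExpMag E) {B : ℕ → ℕ} {g : ℕ → FreeGroup (Fin r)}
    {i j l : ℕ} {x y : ℕ → FreeGroup (Fin r)} (H : State c E B g i j l x y) (hl : 0 < l) (hlc : i + j + l ≤ c) (hN : j ≤ i + l) :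
    ∃ x' y', State c E B g i j (l + 1) x' y' := by
  classical
  set X := EX E x with hX
  set Y := EX E y with hY
  set G := EX E g with hG
  have hi := H.hi
  have hij := H.hij
  have hj : 0 < j := by omega
  have hnil : ∀ z : ℕ → FreeGroup (Fin r), EX E z [] = 1 := by
    intro z
    have : EX E z [] = ger (fun n => ((E (z n) : (NC (Fin r) ℚ)ˣ) : NC (Fin r) ℚ) []) := rfl
    rw [this]
    simp only [hE.hnil]
    rfl
  have hgl : ∀ z : ℕ → FreeGroup (Fin r), Δ (EX E z) = T1 (EX E z) * T2 (EX E z) :=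
    fun z => gm_gl _ (fun n => hE.hgl _)
  have hgK : ∀ w, G w ∈ Set.range (algebraMap (KK B) UF) := fun w => ⟨⟨_, H.hg w⟩, rfl⟩
  have hxK : ∀ w : List (Fin r), w.length < i + l → X w ∈ Set.range (algebraMap (KK B) UF) :=
    fun w hw => ⟨⟨_, EX_KK hE x w (H.bx w hw)⟩, rfl⟩
  have hyK : ∀ w : List (Fin r), w.length < j + l → Y w ∈ Set.range (algebraMap (KK B) UF) :=
    fun w hw => ⟨⟨_, EX_KK hE y w (H.by' w hw)⟩, rfl⟩
  -- leading terms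
  obtain ⟨x₀, hx₀⟩ : ∃ x₀ : NC (Fin r) (KK B), comp i X = cmap (algebraMap (KK B) UF) x₀ := by
    refine exists_cmap fun w => ?_
    rw [comp_apply]
    split_ifs with hw
    · exact hxK w (by omega)
    · exact ⟨0, map_zero _⟩
  obtain ⟨y₀, hy₀⟩ : ∃ y₀ : NC (Fin r) (KK B), comp j Y = cmap (algebraMap (KK B) UF) y₀ := by
    refine exists_cmap fun w => ?_
    rw [comp_apply]
    split_ifs with hw
    · exact hyK w (by omega)
    · exact ⟨0, map_zero _⟩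
  have hxH : IsHom i x₀ := isHom_of_cmap (F := UF) (by rw [← hx₀]; exact comp_isHom i X)
  have hyH : IsHom j y₀ := isHom_of_cmap (F := UF) (by rw [← hy₀]; exact comp_isHom j Y)
  have hxL : IsLie x₀ := isLie_of_cmap (F := UF) (by
    rw [← hx₀]; exact lead_lie hi (hgl x) (og_of_ord H.hx))
  have hyL : IsLie y₀ := isLie_of_cmap (F := UF) (by
    rw [← hy₀]; exact lead_lie hj (hgl y) (og_of_ord H.hy))
  have hx0 : x₀ ≠ 0 := by
    intro h0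
    apply H.hne
    rw [← hX, hx₀, h0, cmap_alg_zero, Ring.lie_def, zero_mul, mul_zero, sub_zero]
  have hne : ∀ c : KK B, y₀ ≠ c • x₀ := by
    intro c hc
    apply H.hne
    rw [← hX, ← hY, hx₀, hy₀, hc, cmap_alg_smul, Ring.lie_def, mul_smul_comm, smul_mul_assoc,
      sub_self]
  -- expansion over the small field
  have : Finite {w : List (Fin r) // w.length = i + l} :=
    (List.finite_length_eq (Fin r) (i + l)).to_subtype
  have : Finite {w : List (Fin r) // w.length = j + l} :=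
    (List.finite_length_eq (Fin r) (j + l)).to_subtype
  obtain ⟨s, ω, ρ, ρ₀, -, hρ, hexp⟩ := lin_expand (K := KK B) (F := UF)
    (ι := {w : List (Fin r) // w.length = i + l} ⊕ {w : List (Fin r) // w.length = j + l})
    (Sum.elim (fun w => X w.1) (fun w => Y w.1))
  have hexpX : ∀ w : List (Fin r), w.length = i + l → X w = algebraMap (KK B) UF (ρ₀ (X w)) +
      ∑ k, ω k * algebraMap (KK B) UF (ρ k (X w)) := fun w hw => hexp (Sum.inl ⟨w, hw⟩)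
  have hexpY : ∀ w : List (Fin r), w.length = j + l → Y w = algebraMap (KK B) UF (ρ₀ (Y w)) +
      ∑ k, ω k * algebraMap (KK B) UF (ρ k (Y w)) := fun w hw => hexp (Sum.inr ⟨w, hw⟩)
  have hker : ∀ k, IsLie (comp (i + l) (cmap (ρ k) X)) ∧ IsLie (comp (j + l) (cmap (ρ k) Y)) ∧
      ⁅x₀, comp (j + l) (cmap (ρ k) Y)⁆ + ⁅comp (i + l) (cmap (ρ k) X), y₀⁆ = 0 := by
    intro k
    refine level_ker i j l hi hij hl X Y G (hnil x) (hgl x) (hnil y) (hgl y) H.hx H.hy H.hgo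
      ?_ hgK hxK hyK x₀ y₀ hx₀ hy₀ (ρ k) (hρ k)
    intro w hw
    exact H.heq w (by omega)
  obtain ⟨S, hS1, hS2⟩ := dyn_finset (κ := Fin 2) (j + l)
  have hword : ∀ k, ∃ a b : List (Fin 2) → KK B, (∀ w, wt ![i, j] w ≠ i + l → a w = 0) ∧
      (∀ w, wt ![i, j] w ≠ j + l → b w = 0) ∧
      comp (i + l) (cmap (ρ k) X) = subst ![x₀, y₀] (∑ w ∈ S, a w • (rb w : NC (Fin 2) (KK B))) ∧
      comp (j + l) (cmap (ρ k) Y) = subst ![x₀, y₀] (∑ w ∈ S, b w • (rb w : NC (Fin 2) (KK B))) ∧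
      ⁅(letter 0 : NC (Fin 2) (KK B)), ∑ w ∈ S, b w • (rb w : NC (Fin 2) (KK B))⁆ +
        ⁅∑ w ∈ S, a w • (rb w : NC (Fin 2) (KK B)), (letter 1 : NC (Fin 2) (KK B))⁆ = 0 := by
    intro k
    obtain ⟨h1, h2, h3⟩ := hker k
    exact words_of_kernel hi hij hl hN hxH hxL hx0 hyH hyL hne (comp_isHom _ _) h1
      (comp_isHom _ _) h2 h3 S (fun d hd n hn F hF => hS2 d hd n hn F hF)
  choose a b ha hb hu hv hab using hword
  -- common denominator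
  obtain ⟨D, hDI, hDO, hD0, hDa⟩ := exists_denom (B := B)
    (ι := (Fin s × S) ⊕ (Fin s × S))
    (Sum.elim (fun p => algebraMap (KK B) UF (a p.1 p.2))
      (fun p => algebraMap (KK B) UF (b p.1 p.2)))
    (by
      rintro (p | p)
      · exact (a p.1 p.2).2
      · exact (b p.1 p.2).2)
  choose nk hnkI hnk using fun k => exists_floorII (ω k / D)
  obtain ⟨α, hα0, hα⟩ := exists_rep S nk hnkI D a
    (fun k w hw => (hDa (Sum.inl ⟨k, w, hw⟩)).1)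
  obtain ⟨β, hβ0, hβ⟩ := exists_rep S nk hnkI D b
    (fun k w hw => (hDa (Sum.inr ⟨k, w, hw⟩)).1)
  have hgA : gm (fun n => ∑ w ∈ S, (α w n : ℚ) • (rb w : NC (Fin 2) ℚ)) =
      ∑ k, (-(nk k * D)) • cmap (algebraMap (KK B) UF)
        (∑ w ∈ S, a k w • (rb w : NC (Fin 2) (KK B))) := by
    rw [gm_words, ← words_swap]
    exact Finset.sum_congr rfl fun w hw => by rw [hα w hw]
  have hgB : gm (fun n => ∑ w ∈ S, (β w n : ℚ) • (rb w : NC (Fin 2) ℚ)) =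
      ∑ k, (-(nk k * D)) • cmap (algebraMap (KK B) UF)
        (∑ w ∈ S, b k w • (rb w : NC (Fin 2) (KK B))) := by
    rw [gm_words, ← words_swap]
    exact Finset.sum_congr rfl fun w hw => by rw [hβ w hw]
  -- the identity holds eventually
  have hfn : gm (fun n => ⁅(letter 0 : NC (Fin 2) ℚ), ∑ w ∈ S, (β w n : ℚ) • (rb w : NC (Fin 2) ℚ)⁆ +
      ⁅∑ w ∈ S, (α w n : ℚ) • (rb w : NC (Fin 2) ℚ), (letter 1 : NC (Fin 2) ℚ)⁆) = 0 := by
    rw [gm_add (fun n => ⁅(letter 0 : NC (Fin 2) ℚ), ∑ w ∈ S, (β w n : ℚ) • (rb w : NC (Fin 2) ℚ)⁆),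
      gm_lie (fun _ => (letter 0 : NC (Fin 2) ℚ)), gm_lie _ (fun _ => (letter 1 : NC (Fin 2) ℚ)),
      hgA, hgB, gm_letter, gm_letter]
    have h1 : ∀ k, ⁅(letter 0 : NC (Fin 2) UF), cmap (algebraMap (KK B) UF)
        (∑ w ∈ S, b k w • (rb w : NC (Fin 2) (KK B)))⁆ + ⁅cmap (algebraMap (KK B) UF)
        (∑ w ∈ S, a k w • (rb w : NC (Fin 2) (KK B))), (letter 1 : NC (Fin 2) UF)⁆ = 0 := by
      intro k
      rw [← cmap_alg_letter (K := KK B) (F := UF) (0 : Fin 2),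
        ← cmap_alg_letter (K := KK B) (F := UF) (1 : Fin 2), ← cmap_alg_lie, ← cmap_alg_lie,
        ← cmap_alg_add, hab k, cmap_alg_zero]
    rw [Ring.lie_def, Ring.lie_def, Finset.mul_sum, Finset.sum_mul, Finset.mul_sum, Finset.sum_mul,
      ← Finset.sum_sub_distrib, ← Finset.sum_sub_distrib, ← Finset.sum_add_distrib]
    refine Finset.sum_eq_zero fun k _ => ?_
    rw [mul_smul_comm, smul_mul_assoc, mul_smul_comm, smul_mul_assoc, ← smul_sub, ← smul_sub,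
      ← smul_add, ← Ring.lie_def, ← Ring.lie_def, h1 k, smul_zero]
  have hS1' : ∀ w ∈ S, w.length ≤ j + l := fun w hw => (hS1 w).mp hw
  have hev1 : ∀ᶠ n in (Filter.hyperfilter ℕ : Filter ℕ),
      ⁅(letter 0 : NC (Fin 2) ℚ), ∑ w ∈ S, (β w n : ℚ) • (rb w : NC (Fin 2) ℚ)⁆ +
      ⁅∑ w ∈ S, (α w n : ℚ) • (rb w : NC (Fin 2) ℚ), (letter 1 : NC (Fin 2) ℚ)⁆ = 0 := by
    have h1 := (gm_ord (j + l + 2) _).mp (show Ord (j + l + 2) (gm (fun n =>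
      ⁅(letter 0 : NC (Fin 2) ℚ), ∑ w ∈ S, (β w n : ℚ) • (rb w : NC (Fin 2) ℚ)⁆ +
      ⁅∑ w ∈ S, (α w n : ℚ) • (rb w : NC (Fin 2) ℚ), (letter 1 : NC (Fin 2) ℚ)⁆)) by
        rw [hfn]; intro w _; rfl)
    filter_upwards [h1] with n hn
    ext v
    rw [NC.zero_apply]
    rcases Nat.lt_or_ge v.length (j + l + 2) with h2 | h2
    · exact hn v h2
    · have hsk : ∀ f : NC (Fin 2) ℚ, ⁅f, (letter 1 : NC (Fin 2) ℚ)⁆ =
          -⁅(letter 1 : NC (Fin 2) ℚ), f⁆ := by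
        intro f
        rw [Ring.lie_def, Ring.lie_def, neg_sub]
      rw [NC.add_apply, words_long hS1' 0 (fun w => (β w n : ℚ)) v (by omega),
        hsk, NC.neg_apply, words_long hS1' 1 (fun w => (α w n : ℚ)) v (by omega)]
      simp
  have hev2 : ∀ᶠ n in (Filter.hyperfilter ℕ : Filter ℕ),
      Ord i (((E (x n) : (NC (Fin r) ℚ)ˣ) : NC (Fin r) ℚ) - 1) := by
    refine (gm_ord i _).mp ?_
    rw [gm_sub _ (fun _ => 1), gm_one]
    exact H.hx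
  have hev3 : ∀ᶠ n in (Filter.hyperfilter ℕ : Filter ℕ),
      Ord j (((E (y n) : (NC (Fin r) ℚ)ˣ) : NC (Fin r) ℚ) - 1) := by
    refine (gm_ord j _).mp ?_
    rw [gm_sub _ (fun _ => 1), gm_one]
    exact H.hy
  have step : ∀ n, ∃ x' y' : FreeGroup (Fin r),
      (⁅(letter 0 : NC (Fin 2) ℚ), ∑ w ∈ S, (β w n : ℚ) • (rb w : NC (Fin 2) ℚ)⁆ +
        ⁅∑ w ∈ S, (α w n : ℚ) • (rb w : NC (Fin 2) ℚ), (letter 1 : NC (Fin 2) ℚ)⁆ = 0 ∧
      Ord i (((E (x n) : (NC (Fin r) ℚ)ˣ) : NC (Fin r) ℚ) - 1) ∧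
      Ord j (((E (y n) : (NC (Fin r) ℚ)ˣ) : NC (Fin r) ℚ) - 1)) →
      ⁅x', y'⁆ * ⁅x n, y n⁆⁻¹ ∈ Gam (fun _ : Fin r => 1) (c + 1) ∧
      Ord (i + l + 1) (((E x' : (NC (Fin r) ℚ)ˣ) : NC (Fin r) ℚ) - ((E (x n) : (NC (Fin r) ℚ)ˣ) : NC (Fin r) ℚ) -
        subst ![comp i ((E (x n) : (NC (Fin r) ℚ)ˣ) : NC (Fin r) ℚ), comp j ((E (y n) : (NC (Fin r) ℚ)ˣ) : NC (Fin r) ℚ)]
          (∑ w ∈ S, (α w n : ℚ) • (rb w : NC (Fin 2) ℚ))) ∧
      Ord (j + l + 1) (((E y' : (NC (Fin r) ℚ)ˣ) : NC (Fin r) ℚ) - ((E (y n) : (NC (Fin r) ℚ)ˣ) : NC (Fin r) ℚ) -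
        subst ![comp i ((E (x n) : (NC (Fin r) ℚ)ˣ) : NC (Fin r) ℚ), comp j ((E (y n) : (NC (Fin r) ℚ)ˣ) : NC (Fin r) ℚ)]
          (∑ w ∈ S, (β w n : ℚ) • (rb w : NC (Fin 2) ℚ))) := by
    intro n
    by_cases hP : ⁅(letter 0 : NC (Fin 2) ℚ), ∑ w ∈ S, (β w n : ℚ) • (rb w : NC (Fin 2) ℚ)⁆ +
        ⁅∑ w ∈ S, (α w n : ℚ) • (rb w : NC (Fin 2) ℚ), (letter 1 : NC (Fin 2) ℚ)⁆ = 0 ∧
      Ord i (((E (x n) : (NC (Fin r) ℚ)ˣ) : NC (Fin r) ℚ) - 1) ∧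
      Ord j (((E (y n) : (NC (Fin r) ℚ)ˣ) : NC (Fin r) ℚ) - 1)
    · obtain ⟨x', y', h1, h2, h3⟩ := Pool.Agent.Helper50.Comm.nstep r i j l (c + 1) hi hj hl E
        hE.hgam S (fun w => α w n) (fun w => β w n)
        (fun w _ hw => by
          by_contra h
          exact hw (hα0 w (fun k => ha k w h) n))
        (fun w _ hw => by
          by_contra h
          exact hw (hβ0 w (fun k => hb k w h) n))
        hP.1 (x n) (y n) (ordGE_of_ord hP.2.1) (ordGE_of_ord hP.2.2)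
      exact ⟨x', y', fun _ => ⟨h1, ord_of_ordGE h2, ord_of_ordGE h3⟩⟩
    · exact ⟨1, 1, fun h => absurd h hP⟩
  choose x' y' hxy using step
  have hev : ∀ᶠ n in (Filter.hyperfilter ℕ : Filter ℕ),
      ⁅x' n, y' n⁆ * ⁅x n, y n⁆⁻¹ ∈ Gam (fun _ : Fin r => 1) (c + 1) ∧
      Ord (i + l + 1) (((E (x' n) : (NC (Fin r) ℚ)ˣ) : NC (Fin r) ℚ) - ((E (x n) : (NC (Fin r) ℚ)ˣ) : NC (Fin r) ℚ) -
        subst ![comp i ((E (x n) : (NC (Fin r) ℚ)ˣ) : NC (Fin r) ℚ), comp j ((E (y n) : (NC (Fin r) ℚ)ˣ) : NC (Fin r) ℚ)]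
          (∑ w ∈ S, (α w n : ℚ) • (rb w : NC (Fin 2) ℚ))) ∧
      Ord (j + l + 1) (((E (y' n) : (NC (Fin r) ℚ)ˣ) : NC (Fin r) ℚ) - ((E (y n) : (NC (Fin r) ℚ)ˣ) : NC (Fin r) ℚ) -
        subst ![comp i ((E (x n) : (NC (Fin r) ℚ)ˣ) : NC (Fin r) ℚ), comp j ((E (y n) : (NC (Fin r) ℚ)ˣ) : NC (Fin r) ℚ)]
          (∑ w ∈ S, (β w n : ℚ) • (rb w : NC (Fin 2) ℚ))) := by
    filter_upwards [hev1, hev2, hev3] with n h1 h2 h3
    exact hxy n ⟨h1, h2, h3⟩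
  have hletters : (fun k : Fin 2 => gm (fun n => (![comp i ((E (x n) : (NC (Fin r) ℚ)ˣ) : NC (Fin r) ℚ),
      comp j ((E (y n) : (NC (Fin r) ℚ)ˣ) : NC (Fin r) ℚ)] : Fin 2 → NC (Fin r) ℚ) k)) =
      fun k => cmap (algebraMap (KK B) UF) ((![x₀, y₀] : Fin 2 → NC (Fin r) (KK B)) k) := by
    funext k
    fin_cases k
    · exact (gm_comp i _).trans hx₀
    · exact (gm_comp j _).trans hy₀
  have h0 : ∀ k, (![x₀, y₀] : Fin 2 → NC (Fin r) (KK B)) k [] = 0 := by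
    intro k
    fin_cases k
    · exact hxL.nil
    · exact hyL.nil
  have h0' : ∀ k, (cmap (algebraMap (KK B) UF) ((![x₀, y₀] : Fin 2 → NC (Fin r) (KK B)) k)) [] = 0 := by
    intro k
    rw [cmap_apply, h0 k, map_zero]
  have hsub : ∀ (γ : List (Fin 2) → ℕ → ℤ) (A : Fin s → NC (Fin 2) (KK B)),
      gm (fun n => ∑ w ∈ S, (γ w n : ℚ) • (rb w : NC (Fin 2) ℚ)) =
        ∑ k, (-(nk k * D)) • cmap (algebraMap (KK B) UF) (A k) →
      gm (fun n => subst ![comp i ((E (x n) : (NC (Fin r) ℚ)ˣ) : NC (Fin r) ℚ),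
        comp j ((E (y n) : (NC (Fin r) ℚ)ˣ) : NC (Fin r) ℚ)]
          (∑ w ∈ S, (γ w n : ℚ) • (rb w : NC (Fin 2) ℚ))) =
        ∑ k, (-(nk k * D)) • cmap (algebraMap (KK B) UF) (subst ![x₀, y₀] (A k)) := by
    intro γ A hγ
    rw [gm_subst, hγ, hletters]
    have h1 : subst (fun k => cmap (algebraMap (KK B) UF) ((![x₀, y₀] : Fin 2 → NC (Fin r) (KK B)) k))
        (∑ k, (-(nk k * D)) • cmap (algebraMap (KK B) UF) (A k)) =
        ∑ k, subst (fun k => cmap (algebraMap (KK B) UF) ((![x₀, y₀] : Fin 2 → NC (Fin r) (KK B)) k))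
          ((-(nk k * D)) • cmap (algebraMap (KK B) UF) (A k)) :=
      map_sum (substHom _ h0') _ _
    rw [h1]
    refine Finset.sum_congr rfl fun k _ => ?_
    rw [subst_smul _ h0', cmap_alg_subst _ h0]
  have hX' : Ord (i + l + 1) (EX E x' - X - ∑ k, (-(nk k * D)) •
      cmap (algebraMap (KK B) UF) (comp (i + l) (cmap (ρ k) X))) := by
    have h1 := (gm_ord (i + l + 1) _).mpr (hev.mono fun n hn => hn.2.1)
    rw [gm_sub (fun n => ((E (x' n) : (NC (Fin r) ℚ)ˣ) : NC (Fin r) ℚ) - ((E (x n) : (NC (Fin r) ℚ)ˣ) : NC (Fin r) ℚ)),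
      gm_sub, hsub α _ hgA] at h1
    simp only [hu]
    exact h1
  have hY' : Ord (j + l + 1) (EX E y' - Y - ∑ k, (-(nk k * D)) •
      cmap (algebraMap (KK B) UF) (comp (j + l) (cmap (ρ k) Y))) := by
    have h1 := (gm_ord (j + l + 1) _).mpr (hev.mono fun n hn => hn.2.2)
    rw [gm_sub (fun n => ((E (y' n) : (NC (Fin r) ℚ)ˣ) : NC (Fin r) ℚ) - ((E (y n) : (NC (Fin r) ℚ)ˣ) : NC (Fin r) ℚ)),
      gm_sub, hsub β _ hgB] at h1
    simp only [hv]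
    exact h1
  obtain ⟨hXe, hXb⟩ := level_bound hDO hD0 hnk hexpX hX'
  obtain ⟨hYe, hYb⟩ := level_bound hDO hD0 hnk hexpY hY'
  have hcx : comp i (EX E x') = comp i X := by
    ext w
    rw [comp_apply, comp_apply]
    split_ifs with hw
    · exact hXe w (by omega)
    · rfl
  have hcy : comp j (EX E y') = comp j Y := by
    ext w
    rw [comp_apply, comp_apply]
    split_ifs with hw
    · exact hYe w (by omega)
    · rfl
  refine ⟨x', y', ?_⟩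
  refine
    { hi := hi
      hij := hij
      hc := H.hc
      hx := ?_
      hy := ?_
      hne := ?_
      hgo := H.hgo
      hg := H.hg
      heq := ?_
      bx := ?_
      by' := ?_ }
  · intro w hw
    rw [NC.sub_apply, hXe w (by omega), ← NC.sub_apply]
    exact H.hx w hw
  · intro w hw
    rw [NC.sub_apply, hYe w (by omega), ← NC.sub_apply]
    exact H.hy w hw
  · rw [hcx, hcy]; exact H.hne
  · have h1 : ∀ᶠ n in (Filter.hyperfilter ℕ : Filter ℕ),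
        Ord (c + 1) (((E (x n) : (NC (Fin r) ℚ)ˣ) : NC (Fin r) ℚ) * ((E (y n) : (NC (Fin r) ℚ)ˣ) : NC (Fin r) ℚ) -
        ((E (g n) : (NC (Fin r) ℚ)ˣ) : NC (Fin r) ℚ) * ((E (y n) : (NC (Fin r) ℚ)ˣ) : NC (Fin r) ℚ) *
        ((E (x n) : (NC (Fin r) ℚ)ˣ) : NC (Fin r) ℚ)) := by
      refine (gm_ord (c + 1) _).mp ?_
      rw [gm_sub (fun n => ((E (x n) : (NC (Fin r) ℚ)ˣ) : NC (Fin r) ℚ) * ((E (y n) : (NC (Fin r) ℚ)ˣ) : NC (Fin r) ℚ)),
        gm_mul, gm_mul (fun n => ((E (g n) : (NC (Fin r) ℚ)ˣ) : NC (Fin r) ℚ) * ((E (y n) : (NC (Fin r) ℚ)ˣ) : NC (Fin r) ℚ)),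
        gm_mul]
      exact H.heq
    have h2 : ∀ᶠ n in (Filter.hyperfilter ℕ : Filter ℕ),
        Ord (c + 1) (((E (x' n) : (NC (Fin r) ℚ)ˣ) : NC (Fin r) ℚ) * ((E (y' n) : (NC (Fin r) ℚ)ˣ) : NC (Fin r) ℚ) -
        ((E (g n) : (NC (Fin r) ℚ)ˣ) : NC (Fin r) ℚ) * ((E (y' n) : (NC (Fin r) ℚ)ˣ) : NC (Fin r) ℚ) *
        ((E (x' n) : (NC (Fin r) ℚ)ˣ) : NC (Fin r) ℚ)) := by
      filter_upwards [h1, hev] with n h3 h4
      exact heq_step hE h3 h4.1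
    have h3 := (gm_ord (c + 1) _).mpr h2
    rw [gm_sub (fun n => ((E (x' n) : (NC (Fin r) ℚ)ˣ) : NC (Fin r) ℚ) * ((E (y' n) : (NC (Fin r) ℚ)ˣ) : NC (Fin r) ℚ)),
        gm_mul, gm_mul (fun n => ((E (g n) : (NC (Fin r) ℚ)ˣ) : NC (Fin r) ℚ) * ((E (y' n) : (NC (Fin r) ℚ)ˣ) : NC (Fin r) ℚ)),
        gm_mul] at h3
    exact h3
  · intro w hw
    rcases Nat.lt_or_ge w.length (i + l) with h1 | h1
    · rw [hXe w h1]; exact H.bx w h1
    · exact hXb w (by omega)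
  · intro w hw
    rcases Nat.lt_or_ge w.length (j + l) with h1 | h1
    · rw [hYe w h1]; exact H.by' w h1
    · exact hYb w (by omega)

end

end Pool.Agent.Helper42.StepN
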