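import Pool.Agent.Helper7.Comm.GermBasics
import Pool.Agent.Helper7.Comm.LinK
import Pool.Agent.Helper7.Comm.Level
import Pool.Agent.Helper88.PropE
import Pool.Agent.Helper50.Comm.NStep
import Pool.Agent.Helper77.Comm.ChainQ

set_option autoImplicit false

/-! # Tools for `stepN` (handoff for MP_76db9d_al) -/

namespace Pool.Agent.Helper42.StepN

open Pool.Agent.Helper7.Comm Pool.Agent.Helper7.Comm.NC Pool.Agent.Helper57.Reduce
open Pool.Agent.Helper88.PropE
open scoped commutatorElement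

section cm

variable {X ι : Type} {K F : Type} [Field K] [Field F] [Algebra K F]

theorem cmap_alg_injective {f g : NC X K}
    (h : cmap (algebraMap K F) f = cmap (algebraMap K F) g) : f = g := by
  ext w
  have := congrArg (fun t : NC X F => t w) h
  exact (algebraMap K F).injective this

theorem cmap_alg_zero : cmap (algebraMap K F) (0 : NC X K) = 0 := by ext w; simp

theorem cmap_alg_smul (c : K) (f : NC X K) :
    cmap (algebraMap K F) (c • f) = algebraMap K F c • cmap (algebraMap K F) f := by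
  ext w; simp

theorem cmap_alg_sum {κ : Type} (s : Finset κ) (f : κ → NC X K) :
    cmap (algebraMap K F) (∑ k ∈ s, f k) = ∑ k ∈ s, cmap (algebraMap K F) (f k) := by
  ext w; simp

theorem cmap_alg_lie (f g : NC X K) :
    cmap (algebraMap K F) ⁅f, g⁆ = ⁅cmap (algebraMap K F) f, cmap (algebraMap K F) g⁆ := by
  rw [Ring.lie_def, Ring.lie_def, cmap_alg_sub, cmap_alg_mul, cmap_alg_mul]

theorem cmap_alg_letter [DecidableEq X] (a : X) :
    cmap (algebraMap K F) (letter a : NC X K) = letter a := by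
  ext w
  simp only [cmap_apply, letter, mk_apply]
  split_ifs <;> simp

theorem cmap_alg_rb [DecidableEq X] (w : List X) :
    cmap (algebraMap K F) (rb w : NC X K) = rb w := by
  induction w with
  | nil => exact cmap_alg_zero
  | cons k w ih =>
    cases w with
    | nil => exact cmap_alg_letter k
    | cons l w => rw [rb, rb, cmap_alg_lie, cmap_alg_letter, ih]

theorem cmap_alg_C (r : K) :
    cmap (algebraMap K F) (C r : NC X K) = C (algebraMap K F r) := by
  ext w; cases w <;> simp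

theorem cmap_alg_subst [Fintype ι] (h : ι → NC X K) (h0 : ∀ k, h k [] = 0) (f : NC ι K) :
    cmap (algebraMap K F) (subst h f) =
      subst (fun k => cmap (algebraMap K F) (h k)) (cmap (algebraMap K F) f) := by
  have h0' : ∀ k, (cmap (algebraMap K F) (h k)) [] = 0 := fun k => by simp [h0]
  refine subst_unique_aux (fun k => cmap (algebraMap K F) (h k)) h0' (α := NC ι K)
    (fun p => algebraMap K F (p [])) (fun k p => D k p)
    (fun p => cmap (algebraMap K F) (subst h p))
    (fun p => subst (fun k => cmap (algebraMap K F) (h k)) (cmap (algebraMap K F) p)) ?_ ?_ f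
  · intro f
    conv_lhs => rw [subst_eq h h0]
    rw [cmap_alg_add, cmap_alg_C, cmap_alg_sum]
    simp only [cmap_alg_mul]
  · intro f
    conv_lhs => rw [subst_eq _ h0']
    rfl

theorem isLie_of_cmap {f : NC X K} (h : IsLie (cmap (algebraMap K F) f)) : IsLie f := by
  rw [isLie_iff] at h ⊢
  refine ⟨?_, fun a b ha hb => ?_⟩
  · exact (map_eq_zero (algebraMap K F)).mp h.1
  · have := h.2 a b ha hb
    rw [sh_cmap _ (fun a b => map_add _ a b)] at this
    exact (map_eq_zero (algebraMap K F)).mp this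

theorem isHom_of_cmap {n : ℕ} {f : NC X K} (h : IsHom n (cmap (algebraMap K F) f)) :
    IsHom n f := fun w hw => (map_eq_zero (algebraMap K F)).mp (h w hw)

/-- A series with coefficients in the small field comes from the small field. -/
theorem exists_cmap {f : NC X F} (h : ∀ w, f w ∈ Set.range (algebraMap K F)) :
    ∃ g : NC X K, f = cmap (algebraMap K F) g := by
  choose g hg using h
  exact ⟨⟨g⟩, by ext w; exact (hg w).symm⟩

end cm

theorem rb_isHom {κ : Type} [DecidableEq κ] {K : Type} [Field K] (w : List κ) :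
    IsHom w.length (rb w : NC κ K) := by
  induction w with
  | nil => exact IsHom.zero _
  | cons k w ih =>
    cases w with
    | nil =>
      intro v hv
      change (if v = [k] then (1 : K) else 0) = 0
      rw [if_neg]
      rintro rfl
      exact hv rfl
    | cons l w =>
      have h1 : IsHom 1 (letter k : NC κ K) := by
        intro v hv
        change (if v = [k] then (1 : K) else 0) = 0
        rw [if_neg]
        rintro rfl
        exact hv rfl
      rw [rb]
      have := h1.lie ih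
      simpa [add_comm] using this

section ker

variable {r : ℕ} {K : Type} [Field K] [CharZero K]

/-- The kernel equation is solved by words in the leading terms. -/
theorem words_of_kernel {i j l : ℕ} (hi : 0 < i) (hij : i ≤ j) (hl : 0 < l) (hN : j ≤ i + l)
    {x₀ y₀ : NC (Fin r) K} (hx : IsHom i x₀) (hxL : IsLie x₀) (hx0 : x₀ ≠ 0)
    (hy : IsHom j y₀) (hyL : IsLie y₀) (hne : ∀ c : K, y₀ ≠ c • x₀)
    {u v : NC (Fin r) K} (hu : IsHom (i + l) u) (huL : IsLie u) (hv : IsHom (j + l) v)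
    (hvL : IsLie v) (h : ⁅x₀, v⁆ + ⁅u, y₀⁆ = 0) (S : Finset (List (Fin 2)))
    (hS : ∀ (d : Fin 2 → ℕ) (_ : ∀ k, 0 < d k) (n : ℕ) (_ : n ≤ j + l) (F : NC (Fin 2) K)
      (_ : ∀ W, wt d W ≠ n → F W = 0),
        dyn d n F = ∑ w ∈ S, (F w * (lastWt d w : K)) • (rb w : NC (Fin 2) K)) :
    ∃ a b : List (Fin 2) → K, (∀ w, wt ![i, j] w ≠ i + l → a w = 0) ∧
      (∀ w, wt ![i, j] w ≠ j + l → b w = 0) ∧
      u = subst ![x₀, y₀] (∑ w ∈ S, a w • (rb w : NC (Fin 2) K)) ∧
      v = subst ![x₀, y₀] (∑ w ∈ S, b w • (rb w : NC (Fin 2) K)) ∧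
      ⁅(letter 0 : NC (Fin 2) K), ∑ w ∈ S, b w • (rb w : NC (Fin 2) K)⁆ +
        ⁅∑ w ∈ S, a w • (rb w : NC (Fin 2) K), (letter 1 : NC (Fin 2) K)⁆ = 0 := by
  have hd0 : ∀ k, 0 < (![i, j] : Fin 2 → ℕ) k := by
    intro k; fin_cases k <;> simp <;> omega
  have hd : ∀ k, IsHom ((![i, j] : Fin 2 → ℕ) k) ((![x₀, y₀] : Fin 2 → NC (Fin r) K) k) := by
    intro k; fin_cases k <;> simp [hx, hy]
  have hL : ∀ k, IsLie ((![x₀, y₀] : Fin 2 → NC (Fin r) K) k) := by
    intro k; fin_cases k <;> simp [hxL, hyL]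
  have hind := indep2 hi hij hx hxL hx0 hy hyL hne
  have h0 : ∀ k, (![x₀, y₀] : Fin 2 → NC (Fin r) K) k [] = 0 := fun k => (hL k).nil
  obtain ⟨⟨A, hA, hA'⟩, ⟨B, hB, hB'⟩⟩ := lemW (y1 := 0) (y2 := 1) (f := 0) (f1 := 0) (f2 := 0)
    hi hij le_rfl hN (show i + (j + l) = i + l + j by omega) hx hxL hx0 hy hyL hne hy hyL hne
    hu huL hv hvL (IsHom.zero _) (by
      intro w hw
      cases w with
      | nil => simp at hw
      | cons a w => rfl) (by noncomm_ring) (IsHom.zero _) (IsHom.zero _) (by noncomm_ring)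
    (by rw [add_zero]; exact h)
  have key : ∀ (n : ℕ) (hn : 0 < n) (hn' : n ≤ j + l) (z : NC (Fin r) K) (hz : IsLie z)
      (F : NC (Fin 2) K) (hF : ∀ W, wt ![i, j] W ≠ n → F W = 0) (hF' : z = subst ![x₀, y₀] F),
      ∃ a : List (Fin 2) → K, (∀ w, wt ![i, j] w ≠ n → a w = 0) ∧
        F = ∑ w ∈ S, a w • (rb w : NC (Fin 2) K) := by
    intro n hn hn' z hz F hF hF'
    rw [hF'] at hz
    obtain ⟨_, h2⟩ := Pool.Agent.Helper77.Comm.lie_of_subst ![x₀, y₀] ![i, j] hd0 hd hL hind hn hF hz
    rw [hS _ hd0 n hn' F hF] at h2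
    refine ⟨fun w => (n : K)⁻¹ * (F w * (lastWt ![i, j] w : K)), ?_, ?_⟩
    · intro w hw
      dsimp only
      rw [hF w hw]; ring
    · have hn0 : (n : K) ≠ 0 := Nat.cast_ne_zero.mpr hn.ne'
      have h3 : F = (n : K)⁻¹ • ((n : K) • F) := by
        rw [smul_smul, inv_mul_cancel₀ hn0, one_smul]
      conv_lhs => rw [h3, h2, Finset.smul_sum]
      refine Finset.sum_congr rfl fun w _ => ?_
      rw [smul_smul]
  obtain ⟨a, ha, ha'⟩ := key (i + l) (by omega) (by omega) u huL A hA hA'
  obtain ⟨b, hb, hb'⟩ := key (j + l) (by omega) le_rfl v hvL B hB hB'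
  refine ⟨a, b, ha, hb, ?_, ?_, ?_⟩
  · rw [← ha']; exact hA'
  · rw [← hb']; exact hB'
  · rw [← ha', ← hb']
    refine subst_injective _ h0 hind _ ?_
    have e1 : subst ![x₀, y₀] (⁅(letter 0 : NC (Fin 2) K), B⁆ + ⁅A, (letter 1 : NC (Fin 2) K)⁆) =
        ⁅subst ![x₀, y₀] (letter 0 : NC (Fin 2) K), subst ![x₀, y₀] B⁆ +
          ⁅subst ![x₀, y₀] A, subst ![x₀, y₀] (letter 1 : NC (Fin 2) K)⁆ := by
      rw [subst_add _ h0, Pool.Agent.Helper59.Dynkin.subst_lie _ h0,
        Pool.Agent.Helper59.Dynkin.subst_lie _ h0]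
    rw [e1, subst_letter _ h0, subst_letter _ h0, ← hA', ← hB']
    exact h

end ker

end Pool.Agent.Helper42.StepN
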